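import Mathlib

/-!
# Sub-Riemannian structures on `ℝⁿ`, exponential map, conjugate locus: definitions
-/

open Set

namespace Q195.Conj

/-- The iterated Lie brackets of the fields of a family `X`. -/
inductive IterBracket {n k : ℕ} (X : Fin k → (Fin n → ℝ) → (Fin n → ℝ)) :
    ((Fin n → ℝ) → (Fin n → ℝ)) → Prop
  | field (i : Fin k) : IterBracket X (X i)
  | bracket {V W : (Fin n → ℝ) → (Fin n → ℝ)} (hV : IterBracket X V) (hW : IterBracket X W) :
      IterBracket X (VectorField.lieBracket ℝ V W)

/-- A sub-Riemannian structure on the manifold `ℝⁿ`, given by a global orthonormal frame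
`X_1, …, X_k` of the distribution: the fields are smooth, linearly independent at every point, and
their iterated Lie brackets span the tangent space at every point. -/
structure SR (n k : ℕ) where
  /-- the orthonormal frame -/
  X : Fin k → (Fin n → ℝ) → (Fin n → ℝ)
  smooth : ∀ i, ContDiff ℝ (⊤ : ℕ∞) (X i)
  indep : ∀ q, LinearIndependent ℝ (fun i => X i q)
  generating : ∀ q, Submodule.span ℝ {v : Fin n → ℝ | ∃ V, IterBracket X V ∧ v = V q} = ⊤

variable {n k : ℕ}

/-- The sub-Riemannian Hamiltonian `H(q, λ) = ½ ∑_i ⟨λ, X_i(q)⟩²`. -/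
noncomputable def SR.H (S : SR n k) (q p : Fin n → ℝ) : ℝ :=
  (∑ i, (∑ j, p j * S.X i q j) ^ 2) / 2

/-- The vector of the first partial derivatives of `f` at `z`. -/
noncomputable def grad (f : (Fin n → ℝ) → ℝ) (z : Fin n → ℝ) : Fin n → ℝ :=
  fun j => deriv (fun y => f (Function.update z j y)) (z j)

/-- `(γ, p)` is the trajectory on `[0, 1]` of the Hamiltonian flow of `H` with initial
condition `(q, l)`. -/
def SR.IsTrajectory (S : SR n k) (q l : Fin n → ℝ) (γ p : ℝ → Fin n → ℝ) : Prop :=
  γ 0 = q ∧ p 0 = l ∧ ∀ t ∈ Icc (0 : ℝ) 1,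
    HasDerivWithinAt γ (grad (fun p' => S.H (γ t) p') (p t)) (Icc 0 1) t ∧
    HasDerivWithinAt p (-grad (fun q' => S.H q' (p t)) (γ t)) (Icc 0 1) t

open Classical in
/-- The exponential map at `q`: the projection of the time-one Hamiltonian flow (and `0` if the
trajectory does not exist up to time one). -/
noncomputable def SR.exp (S : SR n k) (q l : Fin n → ℝ) : Fin n → ℝ :=
  if h : ∃ γ p : ℝ → Fin n → ℝ, S.IsTrajectory q l γ p then h.choose 1 else 0

/-- The conjugate locus at `q`: the covectors `l` with `H(q, l) ≠ 0` such that the trajectory of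
`l` exists up to time one and `l` is a critical point of the exponential map. -/
def SR.Conj (S : SR n k) (q : Fin n → ℝ) : Set (Fin n → ℝ) :=
  {l | S.H q l ≠ 0 ∧ (∃ γ p : ℝ → Fin n → ℝ, S.IsTrajectory q l γ p) ∧
    DifferentiableAt ℝ (S.exp q) l ∧ ¬ Function.Bijective (fderiv ℝ (S.exp q) l)}

/-- The regular conjugate locus: the conjugate covectors having a neighbourhood `U` such that
every straight line through `0` meets `Conj ∩ U` in at most one point. -/
def SR.Regular (S : SR n k) (q : Fin n → ℝ) : Set (Fin n → ℝ) :=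
  {l | l ∈ S.Conj q ∧ ∃ U ∈ nhds l, ∀ v : Fin n → ℝ, v ≠ 0 → ∀ s t : ℝ,
    s • v ∈ S.Conj q ∩ U → t • v ∈ S.Conj q ∩ U → s • v = t • v}

end Q195.Conj
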