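import Pool.Agent.Q195.ConjLocus.Heis

/-!
# The exponential map of `Heis × ℝ` and its critical points
-/

open Set

namespace Q195.Conj

/-- The explicit formula for the exponential map at `0`. -/
noncomputable def ex (l : Fin 4 → ℝ) : Fin 4 → ℝ :=
  ![(l 0 * Real.sin (l 2) - l 1 * (1 - Real.cos (l 2))) / l 2,
    (l 0 * (1 - Real.cos (l 2)) + l 1 * Real.sin (l 2)) / l 2,
    (l 0 ^ 2 + l 1 ^ 2) * (l 2 - Real.sin (l 2)) / (2 * l 2 ^ 2),
    l 3]

theorem const01 {f : ℝ → ℝ} (h : ∀ t ∈ Icc (0 : ℝ) 1, HasDerivWithinAt f 0 (Icc 0 1) t) :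
    ∀ t ∈ Icc (0 : ℝ) 1, f t = f 0 := by
  refine constant_of_derivWithin_zero (fun t ht => (h t ht).differentiableWithinAt)
    fun t ht => ?_
  exact (h t (Ico_subset_Icc_self ht)).derivWithin
    (uniqueDiffOn_Icc one_pos t (Ico_subset_Icc_self ht))

/-- Equations satisfied by the components of a trajectory. -/
theorem traj_comp {q l : Fin 4 → ℝ} {γ p : ℝ → Fin 4 → ℝ} (h : S.IsTrajectory q l γ p) :
    ∀ t ∈ Icc (0 : ℝ) 1,
      HasDerivWithinAt (fun t => γ t 0) (p t 0 - p t 2 * (γ t 1 / 2)) (Icc 0 1) t ∧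
      HasDerivWithinAt (fun t => γ t 1) (p t 1 + p t 2 * (γ t 0 / 2)) (Icc 0 1) t ∧
      HasDerivWithinAt (fun t => γ t 2) (-((p t 0 - p t 2 * (γ t 1 / 2)) * (γ t 1 / 2)) +
        (p t 1 + p t 2 * (γ t 0 / 2)) * (γ t 0 / 2)) (Icc 0 1) t ∧
      HasDerivWithinAt (fun t => γ t 3) (p t 3) (Icc 0 1) t ∧
      HasDerivWithinAt (fun t => p t 0) (-((p t 1 + p t 2 * (γ t 0 / 2)) * (p t 2 / 2)))
        (Icc 0 1) t ∧
      HasDerivWithinAt (fun t => p t 1) ((p t 0 - p t 2 * (γ t 1 / 2)) * (p t 2 / 2))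
        (Icc 0 1) t ∧
      HasDerivWithinAt (fun t => p t 2) 0 (Icc 0 1) t ∧
      HasDerivWithinAt (fun t => p t 3) 0 (Icc 0 1) t := by
  intro t ht
  obtain ⟨h1, h2⟩ := h.2.2 t ht
  rw [grad_p] at h1
  rw [grad_q] at h2
  have h1' := hasDerivWithinAt_pi.1 h1
  have h2' := hasDerivWithinAt_pi.1 h2
  refine ⟨by simpa using h1' 0, by simpa using h1' 1, by simpa using h1' 2, by simpa using h1' 3,
    by simpa using h2' 0, by simpa using h2' 1, by simpa using h2' 2, by simpa using h2' 3⟩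

theorem traj_end {l : Fin 4 → ℝ} (hl : l 2 ≠ 0) {γ p : ℝ → Fin 4 → ℝ}
    (h : S.IsTrajectory 0 l γ p) : γ 1 = ex l := by
  have hc := traj_comp h
  have hγ0 : γ 0 = 0 := h.1
  have hp0 : p 0 = l := h.2.1
  set c := l 2 with hcdef
  have k2 : ∀ t ∈ Icc (0 : ℝ) 1, p t 2 = c := fun t ht => by
    have := const01 (f := fun t => p t 2) (fun t ht => (hc t ht).2.2.2.2.2.2.1) t ht
    rw [this, hp0]
  have k3 : ∀ t ∈ Icc (0 : ℝ) 1, p t 3 = l 3 := fun t ht => by
    have := const01 (f := fun t => p t 3) (fun t ht => (hc t ht).2.2.2.2.2.2.2) t ht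
    rw [this, hp0]
  -- the momenta along the frame
  have dP : ∀ t ∈ Icc (0 : ℝ) 1, HasDerivWithinAt (fun t => p t 0 - c * (γ t 1 / 2))
      (-(c * (p t 1 + c * (γ t 0 / 2)))) (Icc 0 1) t := fun t ht => by
    obtain ⟨a0, a1, -, -, b0, b1, -, -⟩ := hc t ht
    rw [k2 t ht] at a0 a1 b0 b1
    have := b0.fun_sub ((a1.div_const 2).const_mul c)
    refine this.congr_deriv ?_
    ring
  have dQ : ∀ t ∈ Icc (0 : ℝ) 1, HasDerivWithinAt (fun t => p t 1 + c * (γ t 0 / 2))
      (c * (p t 0 - c * (γ t 1 / 2))) (Icc 0 1) t := fun t ht => by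
    obtain ⟨a0, a1, -, -, b0, b1, -, -⟩ := hc t ht
    rw [k2 t ht] at a0 a1 b0 b1
    have := b1.fun_add ((a0.div_const 2).const_mul c)
    refine this.congr_deriv ?_
    ring
  have dcos : ∀ t : ℝ, HasDerivWithinAt (fun t => Real.cos (c * t)) (-(c * Real.sin (c * t)))
      (Icc 0 1) t := fun t => by
    have := (((hasDerivAt_id t).const_mul c).cos).hasDerivWithinAt (s := Icc 0 1)
    refine this.congr_deriv ?_
    simp; ring
  have dsin : ∀ t : ℝ, HasDerivWithinAt (fun t => Real.sin (c * t)) (c * Real.cos (c * t))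
      (Icc 0 1) t := fun t => by
    have := (((hasDerivAt_id t).const_mul c).sin).hasDerivWithinAt (s := Icc 0 1)
    refine this.congr_deriv ?_
    simp; ring
  set P : ℝ → ℝ := fun t => p t 0 - c * (γ t 1 / 2) with hP
  set Q : ℝ → ℝ := fun t => p t 1 + c * (γ t 0 / 2) with hQ
  have dP' : ∀ t ∈ Icc (0 : ℝ) 1, HasDerivWithinAt P (-(c * Q t)) (Icc 0 1) t := dP
  have dQ' : ∀ t ∈ Icc (0 : ℝ) 1, HasDerivWithinAt Q (c * P t) (Icc 0 1) t := dQ
  have hP0 : P 0 = l 0 := by simp [hP, hγ0, hp0]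
  have hQ0 : Q 0 = l 1 := by simp [hQ, hγ0, hp0]
  have kA : ∀ t ∈ Icc (0 : ℝ) 1,
      P t * Real.cos (c * t) + Q t * Real.sin (c * t) = l 0 := fun t ht => by
    have := const01 (f := fun t => P t * Real.cos (c * t) + Q t * Real.sin (c * t))
      (fun t ht => by
        have := ((dP' t ht).fun_mul (dcos t)).fun_add ((dQ' t ht).fun_mul (dsin t))
        refine this.congr_deriv ?_
        ring) t ht
    rw [this]; simp [hP0]
  have kB : ∀ t ∈ Icc (0 : ℝ) 1,
      Q t * Real.cos (c * t) - P t * Real.sin (c * t) = l 1 := fun t ht => by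
    have := const01 (f := fun t => Q t * Real.cos (c * t) - P t * Real.sin (c * t))
      (fun t ht => by
        have := ((dQ' t ht).fun_mul (dcos t)).fun_sub ((dP' t ht).fun_mul (dsin t))
        refine this.congr_deriv ?_
        ring) t ht
    rw [this]; simp [hQ0]
  have hPt : ∀ t ∈ Icc (0 : ℝ) 1, P t = l 0 * Real.cos (c * t) - l 1 * Real.sin (c * t) :=
    fun t ht => by
      have e := Real.sin_sq_add_cos_sq (c * t)
      linear_combination Real.cos (c * t) * kA t ht - Real.sin (c * t) * kB t ht - P t * e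
  have hQt : ∀ t ∈ Icc (0 : ℝ) 1, Q t = l 0 * Real.sin (c * t) + l 1 * Real.cos (c * t) :=
    fun t ht => by
      have e := Real.sin_sq_add_cos_sq (c * t)
      linear_combination Real.sin (c * t) * kA t ht + Real.cos (c * t) * kB t ht - Q t * e
  -- positions
  have d0 : ∀ t ∈ Icc (0 : ℝ) 1, HasDerivWithinAt (fun t => γ t 0) (P t) (Icc 0 1) t :=
    fun t ht => by
      have := (hc t ht).1
      rw [k2 t ht] at this
      exact this
  have d1 : ∀ t ∈ Icc (0 : ℝ) 1, HasDerivWithinAt (fun t => γ t 1) (Q t) (Icc 0 1) t :=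
    fun t ht => by
      have := (hc t ht).2.1
      rw [k2 t ht] at this
      exact this
  have d2 : ∀ t ∈ Icc (0 : ℝ) 1, HasDerivWithinAt (fun t => γ t 2)
      (-(P t * (γ t 1 / 2)) + Q t * (γ t 0 / 2)) (Icc 0 1) t :=
    fun t ht => by
      have := (hc t ht).2.2.1
      rw [k2 t ht] at this
      exact this
  have g0 : ∀ t ∈ Icc (0 : ℝ) 1, c * γ t 0 = Q t - l 1 := fun t ht => by
    have := const01 (f := fun t => c * γ t 0 - Q t) (fun t ht => by
        have := ((d0 t ht).const_mul c).fun_sub (dQ' t ht)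
        refine this.congr_deriv ?_
        ring) t ht
    have h2 : c * γ 0 0 - Q 0 = -l 1 := by simp [hγ0, hQ0]
    have h3 : c * γ t 0 - Q t = c * γ 0 0 - Q 0 := this
    linarith
  have g1 : ∀ t ∈ Icc (0 : ℝ) 1, c * γ t 1 = l 0 - P t := fun t ht => by
    have := const01 (f := fun t => c * γ t 1 + P t) (fun t ht => by
        have := ((d1 t ht).const_mul c).fun_add (dP' t ht)
        refine this.congr_deriv ?_
        ring) t ht
    have h2 : c * γ 0 1 + P 0 = l 0 := by simp [hγ0, hP0]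
    have h3 : c * γ t 1 + P t = c * γ 0 1 + P 0 := this
    linarith
  have g2 : ∀ t ∈ Icc (0 : ℝ) 1, 2 * c ^ 2 * γ t 2
      = (l 0 ^ 2 + l 1 ^ 2) * (c * t - Real.sin (c * t)) := fun t ht => by
    have := const01 (f := fun t => 2 * c ^ 2 * γ t 2 -
        (l 0 ^ 2 + l 1 ^ 2) * (c * t - Real.sin (c * t))) (fun t ht => by
        have h1 := (((hasDerivAt_id t).const_mul c).hasDerivWithinAt (s := Icc 0 1)).fun_sub
          (dsin t)
        have := ((d2 t ht).const_mul (2 * c ^ 2)).fun_sub (h1.const_mul (l 0 ^ 2 + l 1 ^ 2))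
        refine this.congr_deriv ?_
        have e0 := g0 t ht
        have e1 := g1 t ht
        have e : 2 * c ^ 2 * (-(P t * (γ t 1 / 2)) + Q t * (γ t 0 / 2))
            = c * (Q t * (c * γ t 0) - P t * (c * γ t 1)) := by ring
        rw [e, e0, e1, hPt t ht, hQt t ht]
        have e2 := Real.sin_sq_add_cos_sq (c * t)
        linear_combination (c * (l 0 ^ 2 + l 1 ^ 2)) * e2) t ht
    have h2 : 2 * c ^ 2 * γ 0 2 - (l 0 ^ 2 + l 1 ^ 2) * (c * 0 - Real.sin (c * 0)) = 0 := by
      simp [hγ0]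
    have h3 : 2 * c ^ 2 * γ t 2 - (l 0 ^ 2 + l 1 ^ 2) * (c * t - Real.sin (c * t))
      = 2 * c ^ 2 * γ 0 2 - (l 0 ^ 2 + l 1 ^ 2) * (c * 0 - Real.sin (c * 0)) := this
    linarith
  have g3 : ∀ t ∈ Icc (0 : ℝ) 1, γ t 3 = l 3 * t := fun t ht => by
    have := const01 (f := fun t => γ t 3 - l 3 * t) (fun t ht => by
        have h1 := (hc t ht).2.2.2.1
        rw [k3 t ht] at h1
        have := h1.fun_sub (((hasDerivAt_id t).const_mul (l 3)).hasDerivWithinAt (s := Icc 0 1))
        refine this.congr_deriv ?_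
        ring) t ht
    have h2 : γ 0 3 - l 3 * 0 = 0 := by simp [hγ0]
    have h3 : γ t 3 - l 3 * t = γ 0 3 - l 3 * 0 := this
    linarith
  have one : (1 : ℝ) ∈ Icc (0 : ℝ) 1 := by simp
  have r0 := g0 1 one
  have r1 := g1 1 one
  have r2 := g2 1 one
  have r3 := g3 1 one
  rw [hQt 1 one] at r0
  rw [hPt 1 one] at r1
  rw [mul_one] at r0 r1 r2 r3
  ext j
  fin_cases j
  · simp only [ex, Fin.zero_eta, Matrix.cons_val_zero]
    rw [eq_div_iff hl]
    linear_combination r0
  · change γ 1 1 = (l 0 * (1 - Real.cos (l 2)) + l 1 * Real.sin (l 2)) / l 2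
    rw [eq_div_iff hl]
    linear_combination r1
  · simp only [ex, Fin.reduceFinMk, Matrix.cons_val]
    rw [eq_div_iff (by positivity)]
    linear_combination r2
  · simp only [ex, Fin.reduceFinMk, Matrix.cons_val]
    exact r3

/-- Existence of the trajectories. -/
theorem traj_exists {l : Fin 4 → ℝ} (hl : l 2 ≠ 0) : ∃ γ p, S.IsTrajectory 0 l γ p := by
  set c := l 2 with hc
  set a := l 0 with ha
  set b := l 1 with hb
  have dcos : ∀ t : ℝ, HasDerivAt (fun t => Real.cos (c * t)) (-(c * Real.sin (c * t))) t :=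
    fun t => by
      have := ((hasDerivAt_id t).const_mul c).cos
      refine this.congr_deriv ?_
      simp; ring
  have dsin : ∀ t : ℝ, HasDerivAt (fun t => Real.sin (c * t)) (c * Real.cos (c * t)) t :=
    fun t => by
      have := ((hasDerivAt_id t).const_mul c).sin
      refine this.congr_deriv ?_
      simp; ring
  set P : ℝ → ℝ := fun t => a * Real.cos (c * t) - b * Real.sin (c * t) with hP
  set Q : ℝ → ℝ := fun t => a * Real.sin (c * t) + b * Real.cos (c * t) with hQ
  have dP : ∀ t, HasDerivAt P (-(c * Q t)) t := fun t => by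
    refine (((dcos t).const_mul a).sub ((dsin t).const_mul b)).congr_deriv ?_
    simp only [hQ]; ring
  have dQ : ∀ t, HasDerivAt Q (c * P t) t := fun t => by
    refine (((dsin t).const_mul a).add ((dcos t).const_mul b)).congr_deriv ?_
    simp only [hP]; ring
  set x : ℝ → ℝ := fun t => (Q t - b) / c with hx
  set y : ℝ → ℝ := fun t => (a - P t) / c with hy
  set z : ℝ → ℝ := fun t => (a ^ 2 + b ^ 2) * (c * t - Real.sin (c * t)) / (2 * c ^ 2) with hz
  have dx : ∀ t, HasDerivAt x (P t) t := fun t => by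
    refine (((dQ t).sub_const b).div_const c).congr_deriv ?_
    field_simp
  have dy : ∀ t, HasDerivAt y (Q t) t := fun t => by
    refine (((dP t).const_sub a).div_const c).congr_deriv ?_
    field_simp
  have dz : ∀ t, HasDerivAt z (-(P t * (y t / 2)) + Q t * (x t / 2)) t := fun t => by
    have h1 := (((hasDerivAt_id t).const_mul c).fun_sub (dsin t)).const_mul (a ^ 2 + b ^ 2)
    refine (h1.div_const (2 * c ^ 2)).congr_deriv ?_
    simp only [hx, hy, hP, hQ]
    have e := Real.sin_sq_add_cos_sq (c * t)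
    field_simp
    linear_combination (-(a ^ 2 + b ^ 2)) * e
  refine ⟨fun t => ![x t, y t, z t, l 3 * t],
    fun t => ![P t + c * (y t / 2), Q t - c * (x t / 2), c, l 3], ?_, ?_, fun t _ => ?_⟩
  · ext j
    fin_cases j <;> simp [hx, hy, hz, hP, hQ]
  · ext j
    fin_cases j <;> simp [hx, hy, hP, hQ, ha, hb, hc]
  · rw [grad_p, grad_q]
    constructor
    · refine HasDerivAt.hasDerivWithinAt (hasDerivAt_pi.2 fun j => ?_)
      fin_cases j
      · simpa using dx t
      · simpa using dy t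
      · simpa using dz t
      · simpa using (hasDerivAt_id t).const_mul (l 3)
    · refine HasDerivAt.hasDerivWithinAt (hasDerivAt_pi.2 fun j => ?_)
      fin_cases j
      · have := (dP t).fun_add (((dy t).div_const 2).const_mul c)
        simp only [Fin.zero_eta, Matrix.cons_val_zero, Pi.neg_apply]
        refine this.congr_deriv ?_
        simp; ring
      · have := (dQ t).fun_sub (((dx t).div_const 2).const_mul c)
        simp only [Fin.mk_one, Matrix.cons_val_one, Pi.neg_apply]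
        refine this.congr_deriv ?_
        simp; ring
      · simpa using hasDerivAt_const t c
      · simpa using hasDerivAt_const t (l 3)

theorem exp_eq {l : Fin 4 → ℝ} (hl : l 2 ≠ 0) : S.exp 0 l = ex l := by
  have h := traj_exists hl
  unfold SR.exp
  rw [dif_pos h]
  obtain ⟨p, hp⟩ := h.choose_spec
  exact traj_end hl hp

end Q195.Conj
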