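import Pool.Agent.Q195.ConjLocus.Defs

/-!
# The product of the Heisenberg group with a line
-/

open Set

namespace Q195.Conj

/-- The frame `∂_x - (y/2)∂_z`, `∂_y + (x/2)∂_z`, `∂_w` on `ℝ⁴`. -/
noncomputable def frame (i : Fin 3) (q : Fin 4 → ℝ) : Fin 4 → ℝ :=
  ![![1, 0, -(q 1 / 2), 0], ![0, 1, q 0 / 2, 0], ![0, 0, 0, 1]] i

theorem frame_smooth (i : Fin 3) : ContDiff ℝ (⊤ : ℕ∞) (frame i) := by
  rw [contDiff_pi]
  intro j
  fin_cases i <;> fin_cases j <;> simp [frame] <;> fun_prop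

theorem bracket01 (q : Fin 4 → ℝ) :
    VectorField.lieBracket ℝ (frame 0) (frame 1) q = ![0, 0, 1, 0] := by
  have h0 : HasFDerivAt (frame 0) (ContinuousLinearMap.pi
      ![0, 0, -((1 / 2 : ℝ) • ContinuousLinearMap.proj (R := ℝ) (φ := fun _ : Fin 4 => ℝ) 1), 0])
      q := by
    rw [hasFDerivAt_pi']
    intro j
    have hp : HasFDerivAt (fun q : Fin 4 → ℝ => q 1)
      (ContinuousLinearMap.proj (R := ℝ) (φ := fun _ : Fin 4 => ℝ) 1) q :=
      (ContinuousLinearMap.proj (R := ℝ) (φ := fun _ : Fin 4 => ℝ) 1).hasFDerivAt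
    fin_cases j
    · simpa [frame] using hasFDerivAt_const (1 : ℝ) q
    · simpa [frame] using hasFDerivAt_const (0 : ℝ) q
    · have := (hp.const_smul (1 / 2 : ℝ)).neg
      refine (this.congr_of_eventuallyEq (Filter.Eventually.of_forall fun y => ?_)).congr_fderiv ?_
      · simp [frame]; ring
      · ext v; simp
    · simpa [frame] using hasFDerivAt_const (0 : ℝ) q
  have h1 : HasFDerivAt (frame 1) (ContinuousLinearMap.pi
      ![0, 0, ((1 / 2 : ℝ) • ContinuousLinearMap.proj (R := ℝ) (φ := fun _ : Fin 4 => ℝ) 0), 0])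
      q := by
    rw [hasFDerivAt_pi']
    intro j
    have hp : HasFDerivAt (fun q : Fin 4 → ℝ => q 0)
      (ContinuousLinearMap.proj (R := ℝ) (φ := fun _ : Fin 4 => ℝ) 0) q :=
      (ContinuousLinearMap.proj (R := ℝ) (φ := fun _ : Fin 4 => ℝ) 0).hasFDerivAt
    fin_cases j
    · simpa [frame] using hasFDerivAt_const (0 : ℝ) q
    · simpa [frame] using hasFDerivAt_const (1 : ℝ) q
    · have := (hp.const_smul (1 / 2 : ℝ))
      refine (this.congr_of_eventuallyEq (Filter.Eventually.of_forall fun y => ?_)).congr_fderiv ?_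
      · simp [frame]; ring
      · ext v; simp
    · simpa [frame] using hasFDerivAt_const (0 : ℝ) q
  rw [VectorField.lieBracket, h0.fderiv, h1.fderiv]
  ext j
  fin_cases j <;> simp [frame]
  norm_num

theorem frame_indep (q : Fin 4 → ℝ) : LinearIndependent ℝ (fun i => frame i q) := by
  rw [Fintype.linearIndependent_iff]
  intro g hg i
  rw [Fin.sum_univ_three] at hg
  have e0 := congrFun hg 0
  have e1 := congrFun hg 1
  have e3 := congrFun hg 3
  simp [frame] at e0 e1 e3
  fin_cases i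
  · exact e0
  · exact e1
  · exact e3

theorem frame_generating (q : Fin 4 → ℝ) :
    Submodule.span ℝ {v : Fin 4 → ℝ | ∃ V, IterBracket frame V ∧ v = V q} = ⊤ := by
  rw [eq_top_iff]
  intro v _
  set M := Submodule.span ℝ {v : Fin 4 → ℝ | ∃ V, IterBracket frame V ∧ v = V q}
  have h : ∀ i, frame i q ∈ M := fun i =>
    Submodule.subset_span ⟨frame i, IterBracket.field i, rfl⟩
  have hb : (![0, 0, 1, 0] : Fin 4 → ℝ) ∈ M :=
    Submodule.subset_span ⟨_, IterBracket.bracket (IterBracket.field 0) (IterBracket.field 1),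
      (bracket01 q).symm⟩
  have e : v = v 0 • frame 0 q + v 1 • frame 1 q + v 3 • frame 2 q +
      (v 2 + v 0 * (q 1 / 2) - v 1 * (q 0 / 2)) • (![0, 0, 1, 0] : Fin 4 → ℝ) := by
    ext j
    fin_cases j <;> simp [frame]
  rw [e]
  exact M.add_mem (M.add_mem (M.add_mem (M.smul_mem _ (h 0)) (M.smul_mem _ (h 1)))
    (M.smul_mem _ (h 2))) (M.smul_mem _ hb)

/-- The sub-Riemannian structure of `Heis × ℝ`. -/
noncomputable def S : SR 4 3 where
  X := frame
  smooth := frame_smooth
  indep := frame_indep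
  generating := frame_generating

theorem H_eq (q p : Fin 4 → ℝ) : S.H q p
    = ((p 0 - p 2 * (q 1 / 2)) ^ 2 + (p 1 + p 2 * (q 0 / 2)) ^ 2 + p 3 ^ 2) / 2 := by
  unfold SR.H
  rw [Fin.sum_univ_three]
  simp only [Fin.sum_univ_four]
  simp [S, frame]
  ring

theorem grad_p (q p : Fin 4 → ℝ) : grad (fun p' => S.H q p') p
    = ![p 0 - p 2 * (q 1 / 2), p 1 + p 2 * (q 0 / 2),
        -((p 0 - p 2 * (q 1 / 2)) * (q 1 / 2)) + (p 1 + p 2 * (q 0 / 2)) * (q 0 / 2), p 3] := by
  have key : ∀ (f g h : ℝ → ℝ) (f' g' h' y : ℝ), HasDerivAt f f' y → HasDerivAt g g' y →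
      HasDerivAt h h' y →
      deriv (fun y => (f y ^ 2 + g y ^ 2 + h y ^ 2) / 2) y = f y * f' + g y * g' + h y * h' := by
    intro f g h f' g' h' y hf hg hh
    have := (((hf.fun_pow 2).fun_add (hg.fun_pow 2)).fun_add (hh.fun_pow 2)).div_const 2
    refine this.deriv.trans ?_
    push_cast
    ring
  ext j
  simp only [grad, H_eq]
  fin_cases j
  · have := key (fun y => y - p 2 * (q 1 / 2)) (fun _ => p 1 + p 2 * (q 0 / 2)) (fun _ => p 3)
      1 0 0 (p 0) ((hasDerivAt_id _).sub_const _) (hasDerivAt_const _ _) (hasDerivAt_const _ _)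
    simpa [Function.update_apply] using this
  · have := key (fun _ => p 0 - p 2 * (q 1 / 2)) (fun y => y + p 2 * (q 0 / 2)) (fun _ => p 3)
      0 1 0 (p 1) (hasDerivAt_const _ _) ((hasDerivAt_id _).add_const _) (hasDerivAt_const _ _)
    simpa [Function.update_apply] using this
  · have := key (fun y => p 0 - y * (q 1 / 2)) (fun y => p 1 + y * (q 0 / 2)) (fun _ => p 3)
      (-(q 1 / 2)) (q 0 / 2) 0 (p 2)
      (by simpa using ((hasDerivAt_id (p 2)).mul_const (q 1 / 2)).const_sub (p 0))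
      (by simpa using ((hasDerivAt_id (p 2)).mul_const (q 0 / 2)).const_add (p 1))
      (hasDerivAt_const _ _)
    simpa [Function.update_apply] using this
  · have := key (fun _ => p 0 - p 2 * (q 1 / 2)) (fun _ => p 1 + p 2 * (q 0 / 2)) (fun y => y)
      0 0 1 (p 3) (hasDerivAt_const _ _) (hasDerivAt_const _ _) (hasDerivAt_id _)
    simpa [Function.update_apply] using this

theorem grad_q (q p : Fin 4 → ℝ) : grad (fun q' => S.H q' p) q
    = ![(p 1 + p 2 * (q 0 / 2)) * (p 2 / 2), -((p 0 - p 2 * (q 1 / 2)) * (p 2 / 2)), 0, 0] := by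
  have key : ∀ (f g h : ℝ → ℝ) (f' g' h' y : ℝ), HasDerivAt f f' y → HasDerivAt g g' y →
      HasDerivAt h h' y →
      deriv (fun y => (f y ^ 2 + g y ^ 2 + h y ^ 2) / 2) y = f y * f' + g y * g' + h y * h' := by
    intro f g h f' g' h' y hf hg hh
    have := (((hf.fun_pow 2).fun_add (hg.fun_pow 2)).fun_add (hh.fun_pow 2)).div_const 2
    refine this.deriv.trans ?_
    push_cast
    ring
  have hl : ∀ (r y : ℝ), HasDerivAt (fun y : ℝ => r * (y / 2)) (r / 2) y := by
    intro r y
    have := ((hasDerivAt_id y).div_const 2).const_mul r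
    refine this.congr_deriv ?_
    ring
  ext j
  simp only [grad, H_eq]
  fin_cases j
  · have := key (fun _ => p 0 - p 2 * (q 1 / 2)) (fun y => p 1 + p 2 * (y / 2)) (fun _ => p 3)
      0 (p 2 / 2) 0 (q 0) (hasDerivAt_const _ _) ((hl _ _).const_add _) (hasDerivAt_const _ _)
    simpa [Function.update_apply] using this
  · have := key (fun y => p 0 - p 2 * (y / 2)) (fun _ => p 1 + p 2 * (q 0 / 2)) (fun _ => p 3)
      (-(p 2 / 2)) 0 0 (q 1) ((hl _ _).const_sub _) (hasDerivAt_const _ _) (hasDerivAt_const _ _)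
    simpa [Function.update_apply] using this
  · simp [Function.update_apply]
  · simp [Function.update_apply]

end Q195.Conj
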