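import Pool.Agent.Q195.ConjLocus.Exp

/-!
# The conjugate locus of `Heis × ℝ` near `(0, 0, 1, 1)`
-/

open Set Filter

namespace Q195.Conj

/-- Differentiability of the explicit formula. -/
theorem ex_diff {l : Fin 4 → ℝ} (hl : l 2 ≠ 0) : DifferentiableAt ℝ ex l := by
  rw [differentiableAt_pi]
  intro j
  have hp : ∀ i : Fin 4, DifferentiableAt ℝ (fun l : Fin 4 → ℝ => l i) l := fun i =>
    differentiableAt_apply i l
  have h2 : (2 * l 2 ^ 2 : ℝ) ≠ 0 := by positivity
  unfold ex
  fin_cases j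
  · have := (((hp 0).fun_mul (hp 2).sin).fun_sub
      ((hp 1).fun_mul ((hp 2).cos.const_sub 1))).fun_mul ((hp 2).fun_inv hl)
    simpa [div_eq_mul_inv] using this
  · have := (((hp 0).fun_mul ((hp 2).cos.const_sub 1)).fun_add
      ((hp 1).fun_mul (hp 2).sin)).fun_mul ((hp 2).fun_inv hl)
    simpa [div_eq_mul_inv] using this
  · have := ((((hp 0).fun_pow 2).fun_add ((hp 1).fun_pow 2)).fun_mul
      ((hp 2).fun_sub (hp 2).sin)).fun_mul ((((hp 2).fun_pow 2).const_mul 2).fun_inv h2)
    simp only [← div_eq_mul_inv] at this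
    exact this
  · exact hp 3

theorem ev_ne {l : Fin 4 → ℝ} (hl : l 2 ≠ 0) : S.exp 0 =ᶠ[nhds l] ex := by
  have hc : ContinuousAt (fun l : Fin 4 → ℝ => l 2) l := (continuous_apply 2).continuousAt
  filter_upwards [hc.eventually (isOpen_ne.mem_nhds hl)] with y hy
  exact exp_eq hy

theorem exp_diff {l : Fin 4 → ℝ} (hl : l 2 ≠ 0) : DifferentiableAt ℝ (S.exp 0) l :=
  (ex_diff hl).congr_of_eventuallyEq (ev_ne hl)

theorem exp_fderiv {l : Fin 4 → ℝ} (hl : l 2 ≠ 0) : fderiv ℝ (S.exp 0) l = fderiv ℝ ex l :=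
  (ev_ne hl).fderiv_eq

/-- Directional derivatives of the explicit formula. -/
theorem ex_line {l v : Fin 4 → ℝ} (hl : l 2 ≠ 0) :
    HasDerivAt (fun t : ℝ => ex (l + t • v)) (fderiv ℝ ex l v) 0 := by
  have h1 : HasDerivAt (fun t : ℝ => l + t • v) v 0 := by
    simpa using ((hasDerivAt_id (0 : ℝ)).smul_const v).const_add l
  have h2 : HasFDerivAt ex (fderiv ℝ ex l) (l + (0 : ℝ) • v) := by
    simpa using (ex_diff hl).hasFDerivAt
  exact h2.comp_hasDerivAt (0 : ℝ) h1

/-- On the plane `a = b = 0` the exponential map is critical. -/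
theorem crit_plane {c e : ℝ} (hc : c ≠ 0) :
    ¬ Function.Bijective (fderiv ℝ (S.exp 0) ![0, 0, c, e]) := by
  have hl : (![0, 0, c, e] : Fin 4 → ℝ) 2 ≠ 0 := by simpa using hc
  rw [exp_fderiv hl]
  intro hb
  have h1 := ex_line (l := ![0, 0, c, e]) (v := ![0, 0, 1, 0]) hl
  have h2 : (fun t : ℝ => ex (![0, 0, c, e] + t • ![0, 0, 1, 0])) = fun _ => ![0, 0, 0, e] := by
    funext t
    ext j
    fin_cases j <;> simp [ex]
  rw [h2] at h1
  have h3 := h1.unique (hasDerivAt_const (0 : ℝ) (![0, 0, 0, e] : Fin 4 → ℝ))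
  have h4 := hb.1 (h3.trans (map_zero _).symm)
  have h5 := congrFun h4 2
  simp at h5

theorem mem_conj {c e : ℝ} (hc : c ≠ 0) (he : e ≠ 0) : (![0, 0, c, e] : Fin 4 → ℝ) ∈ S.Conj 0 := by
  have hl : (![0, 0, c, e] : Fin 4 → ℝ) 2 ≠ 0 := by simpa using hc
  refine ⟨?_, traj_exists hl, exp_diff hl, crit_plane hc⟩
  rw [H_eq]
  simp
  exact he

/-- Off the plane, the exponential map is regular for `0 < c < π`. -/
theorem not_crit {l : Fin 4 → ℝ} (h0 : 0 < l 2) (hπ : l 2 < Real.pi)
    (hab : ¬ (l 0 = 0 ∧ l 1 = 0)) : Function.Bijective (fderiv ℝ ex l) := by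
  have hl : l 2 ≠ 0 := h0.ne'
  have hinj : Function.Injective (fderiv ℝ ex l) := by
    rw [injective_iff_map_eq_zero]
    intro v hv
    have h1 := ex_line (v := v) hl
    rw [hv] at h1
    have h2 := hasDerivAt_pi.1 h1
    set a := l 0
    set b := l 1
    set c := l 2
    set e := l 3
    have la : HasDerivAt (fun t : ℝ => a + t * v 0) (v 0) 0 := by
      simpa using ((hasDerivAt_id (0 : ℝ)).mul_const (v 0)).const_add a
    have lb : HasDerivAt (fun t : ℝ => b + t * v 1) (v 1) 0 := by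
      simpa using ((hasDerivAt_id (0 : ℝ)).mul_const (v 1)).const_add b
    have lc : HasDerivAt (fun t : ℝ => c + t * v 2) (v 2) 0 := by
      simpa using ((hasDerivAt_id (0 : ℝ)).mul_const (v 2)).const_add c
    have le : HasDerivAt (fun t : ℝ => e + t * v 3) (v 3) 0 := by
      simpa using ((hasDerivAt_id (0 : ℝ)).mul_const (v 3)).const_add e
    have ls := lc.sin
    have lcos := lc.cos
    have z0 : c + 0 * v 2 = c := by ring
    have za : a + 0 * v 0 = a := by ring
    have zb : b + 0 * v 1 = b := by ring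
    -- component 3
    have e3 : v 3 = 0 := by
      have := h2 3
      have h3 : (fun t : ℝ => ex (l + t • v) 3) = fun t => e + t * v 3 := by
        funext t; simp [ex, e]
      rw [h3] at this
      exact le.unique this
    -- component 0
    have e0 := h2 0
    have h3 : (fun t : ℝ => ex (l + t • v) 0) = fun t =>
        ((a + t * v 0) * Real.sin (c + t * v 2) - (b + t * v 1) * (1 - Real.cos (c + t * v 2))) /
          (c + t * v 2) := by
      funext t; simp [ex, a, b, c]
    rw [h3] at e0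
    have f0 := (((la.fun_mul ls).fun_sub (lb.fun_mul (lcos.const_sub 1))).fun_div lc
      (by rw [z0]; exact hl)).unique e0
    have e1 := h2 1
    have h4 : (fun t : ℝ => ex (l + t • v) 1) = fun t =>
        ((a + t * v 0) * (1 - Real.cos (c + t * v 2)) + (b + t * v 1) * Real.sin (c + t * v 2)) /
          (c + t * v 2) := by
      funext t; simp [ex, a, b, c]
    rw [h4] at e1
    have f1 := (((la.fun_mul (lcos.const_sub 1)).fun_add (lb.fun_mul ls)).fun_div lc
      (by rw [z0]; exact hl)).unique e1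
    have e2 := h2 2
    have h5 : (fun t : ℝ => ex (l + t • v) 2) = fun t =>
        (((a + t * v 0) ^ 2 + (b + t * v 1) ^ 2) * ((c + t * v 2) - Real.sin (c + t * v 2))) /
          (2 * (c + t * v 2) ^ 2) := by
      funext t; simp [ex, a, b, c]
    rw [h5] at e2
    have f2 := ((((la.fun_pow 2).fun_add (lb.fun_pow 2)).fun_mul (lc.fun_sub ls)).fun_div
      ((lc.fun_pow 2).const_mul 2) (by rw [z0]; positivity)).unique e2
    simp only [z0, za, zb, Pi.zero_apply] at f0 f1 f2
    rw [div_eq_zero_iff, or_iff_left (by positivity)] at f0 f1 f2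
    set s := Real.sin c with hs
    set k := Real.cos c with hk
    have hsk : s ^ 2 + k ^ 2 = 1 := Real.sin_sq_add_cos_sq c
    have hk1 : k < 1 := by
      have := Real.cos_lt_cos_of_nonneg_of_le_pi le_rfl hπ.le h0
      simpa [hk] using this
    have hs0 : 0 < s := Real.sin_pos_of_pos_of_lt_pi h0 hπ
    -- the determinant condition
    have hdet : 0 < 2 * (1 - k) - c * s := by
      have h6 : c / 2 < Real.tan (c / 2) := Real.lt_tan (by linarith) (by linarith)
      have h7 : 0 < Real.cos (c / 2) := Real.cos_pos_of_mem_Ioo ⟨by linarith, by linarith⟩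
      have h8 : 0 < Real.sin (c / 2) := Real.sin_pos_of_pos_of_lt_pi (by linarith) (by linarith)
      rw [Real.tan_eq_sin_div_cos, lt_div_iff₀ h7] at h6
      have h9 : s = 2 * Real.sin (c / 2) * Real.cos (c / 2) := by
        rw [hs, ← Real.sin_two_mul]; congr 1; ring
      have h10 : 1 - k = 2 * Real.sin (c / 2) ^ 2 := by
        have : k = 1 - 2 * Real.sin (c / 2) ^ 2 := by
          rw [hk, show c = 2 * (c / 2) by ring, Real.cos_two_mul, Real.cos_sq',
            show 2 * (c / 2) / 2 = c / 2 by ring]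
          ring
        linarith
      rw [h9, h10]
      nlinarith
    have hr : 0 < a ^ 2 + b ^ 2 := by
      rcases eq_or_ne a 0 with ha | ha
      · have hb : b ≠ 0 := fun hb => hab ⟨ha, hb⟩
        positivity
      · positivity
    simp only [show (2 : ℕ) - 1 = 1 from rfl, pow_one, Nat.cast_ofNat] at f2
    have g0 : 2 * c * (1 - k) * v 0 + v 2 * (c * (a * s - b * (1 - k)) - 2 * a * (1 - k)) = 0 := by
      linear_combination s * f0 + (1 - k) * f1 + (-c * v 0 + c * b * v 2 + a * v 2) * hsk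
    have g1 : 2 * c * (1 - k) * v 1 + v 2 * (c * (a * (1 - k) + b * s) - 2 * b * (1 - k)) = 0 := by
      linear_combination -(1 - k) * f0 + s * f1 + (-c * v 1 - c * a * v 2 + b * v 2) * hsk
    have g2 : (2 * c ^ 2 * (a ^ 2 + b ^ 2) * (2 * (1 - k) - c * s)) * v 2 = 0 := by
      linear_combination (1 - k) * f2 - 2 * c * (c - s) * (a * g0 + b * g1)
        - 2 * c ^ 2 * (a ^ 2 + b ^ 2) * v 2 * hsk
    have hne : 2 * c ^ 2 * (a ^ 2 + b ^ 2) * (2 * (1 - k) - c * s) ≠ 0 := by positivity
    have v2 : v 2 = 0 := (mul_eq_zero.1 g2).resolve_left hne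
    rw [v2, zero_mul, add_zero] at g0 g1
    have hk1' : 0 < 1 - k := by linarith
    have hne2 : 2 * c * (1 - k) ≠ 0 := by positivity
    have v0 : v 0 = 0 := (mul_eq_zero.1 g0).resolve_left hne2
    have v1 : v 1 = 0 := (mul_eq_zero.1 g1).resolve_left hne2
    ext j
    fin_cases j
    · exact v0
    · exact v1
    · exact v2
    · exact e3
  exact ⟨hinj, (LinearMap.injective_iff_surjective (f := (fderiv ℝ ex l).toLinearMap)).1 hinj⟩

/-- Near `(0, 0, 1, 1)` every conjugate covector lies in the plane `a = b = 0`. -/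
theorem conj_plane {l : Fin 4 → ℝ} (h0 : 0 < l 2) (hπ : l 2 < Real.pi) (h : l ∈ S.Conj 0) :
    l 0 = 0 ∧ l 1 = 0 := by
  by_contra hab
  have hl : l 2 ≠ 0 := h0.ne'
  refine h.2.2.2 ?_
  rw [exp_fderiv hl]
  exact not_crit h0 hπ hab

/-- No covector in the plane is regular. -/
theorem not_regular {c e : ℝ} (hc : c ≠ 0) (he : e ≠ 0) :
    (![0, 0, c, e] : Fin 4 → ℝ) ∉ S.Regular 0 := by
  rintro ⟨-, U, hU, h⟩
  set v : Fin 4 → ℝ := ![0, 0, c, e] with hv
  have hcont : Tendsto (fun s : ℝ => s • v) (nhds 1) (nhds v) := by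
    have : Continuous (fun s : ℝ => s • v) := by fun_prop
    simpa using this.tendsto 1
  have h1 := hcont.eventually hU
  obtain ⟨ε, hε, h2⟩ := Metric.eventually_nhds_iff.1 h1
  have hv0 : v ≠ 0 := by
    intro h0
    have := congrFun h0 2
    exact hc (by simpa [hv] using this)
  have hmem : ∀ s : ℝ, s ≠ 0 → s • v ∈ S.Conj 0 := by
    intro s hs
    have : s • v = ![0, 0, s * c, s * e] := by
      ext j; fin_cases j <;> simp [hv]
    rw [this]
    exact mem_conj (mul_ne_zero hs hc) (mul_ne_zero hs he)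
  have e1 : (1 : ℝ) • v ∈ S.Conj 0 ∩ U := ⟨hmem 1 one_ne_zero, h2 (by simpa using hε)⟩
  have e2 : (1 + ε / 2 : ℝ) • v ∈ S.Conj 0 ∩ U :=
    ⟨hmem _ (by positivity), h2 (by
      rw [Real.dist_eq, add_sub_cancel_left, abs_of_pos (by positivity)]; linarith)⟩
  have h3 := h v hv0 1 (1 + ε / 2) e1 e2
  have h4 := congrFun h3 2
  simp [hv, add_mul] at h4
  rcases h4 with h4 | h4
  · linarith
  · exact hc h4

/-- The regular conjugate locus is not dense in the conjugate locus. -/
theorem not_dense : ¬ S.Conj 0 ⊆ closure (S.Regular 0) := by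
  intro h
  have h1 : (![0, 0, 1, 1] : Fin 4 → ℝ) ∈ closure (S.Regular 0) :=
    h (mem_conj one_ne_zero one_ne_zero)
  rw [mem_closure_iff_nhds] at h1
  have hU : {l : Fin 4 → ℝ | 0 < l 2 ∧ l 2 < Real.pi ∧ 0 < l 3} ∈
      nhds (![0, 0, 1, 1] : Fin 4 → ℝ) := by
    have hopen : IsOpen {l : Fin 4 → ℝ | 0 < l 2 ∧ l 2 < Real.pi ∧ 0 < l 3} :=
      (isOpen_lt continuous_const (continuous_apply 2)).inter
        ((isOpen_lt (continuous_apply 2) continuous_const).inter
          (isOpen_lt continuous_const (continuous_apply 3)))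
    refine hopen.mem_nhds ?_
    have := Real.pi_gt_three
    simp
    linarith
  obtain ⟨l, ⟨a1, a2, a3⟩, hl⟩ := h1 _ hU
  obtain ⟨b0, b1⟩ := conj_plane a1 a2 hl.1
  have e : l = ![0, 0, l 2, l 3] := by
    ext j; fin_cases j <;> simp [b0, b1]
  rw [e] at hl
  exact not_regular a1.ne' a3.ne' hl

end Q195.Conj
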